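import Pool.Agent.V1166.DC.Main

/-!
# MP_890ea4_an — distributional chaos does not imply `m_n`-distributional chaos under dense
null orbits

`X = c₀`, `T` a weighted backward shift, `m_n = n²`.
-/

namespace Pool.Agent.Results.MP_890ea4_an.ShiftCounterexample

open Filter Topology ZeroAtInfty Pool.Agent.V1166.DC

/-- For `𝕂 = ℝ` or `ℂ` there are a Banach space `X` over `𝕂` and `T ∈ L(X)` with a dense
linear subspace on which `T ^ n x → 0`, such that `T` is distributionally chaotic but not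
`n²`-distributionally chaotic; the sequence `m_n = n²` belongs to the class `R`. -/
theorem result (𝕂 : Type) [RCLike 𝕂] :
    ∃ (X : Type) (_ : NormedAddCommGroup X) (_ : NormedSpace 𝕂 X) (_ : CompleteSpace X)
      (T : X →L[𝕂] X) (m : ℕ → ℝ) (X₀ : Submodule 𝕂 X),
      ClassR m ∧ Dense (X₀ : Set X) ∧
      (∀ x ∈ X₀, Tendsto (fun n => (⇑T)^[n] x) atTop (𝓝 0)) ∧
      MDC (fun n => (n : ℝ)) (⇑T) ∧ ¬ MDC m (⇑T) :=
  ⟨C₀(ℕ, 𝕂), inferInstance, inferInstance, inferInstance, T 𝕂, fun n => (n : ℝ) ^ 2, X0 𝕂,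
    sq_classR, X0_dense, X0_tendsto, chaotic, not_sq_chaotic⟩

end Pool.Agent.Results.MP_890ea4_an.ShiftCounterexample
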